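import Pool.Agent.MP_88e4f4_nt.TE.E10
import Pool.Prelude.Def_F_feb75459

set_option autoImplicit false

namespace Pool.Agent.Results.MP_88e4f4_nt.AlmostAllBases

open N014b56fe Pool.Agent.MP_88e4f4_nt.GB Pool.Agent.MP_88e4f4_nt.TE

/-- For every even `m ≥ 4` the number `B` of bases `2 ≤ y ≤ Y` for which there are `x > y` and
`n ≥ 3` with `R_x(m) = R_y(n)` satisfies, for all large `Y`, with an absolute constant `C`,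
`B ≤ C m ^ (-δ / 5) Y` where `δ = ∏_{p ∣ m - 1} (1 - 1 / (p - 1))`, `B ≤ C exp (-√(log m) / 10) Y`
and, if `m ≥ 3200`, `B ≤ (2 e ∑_{p ∣ m - 1} 1 / (p - 1) + ε) Y`. -/
theorem result : ∃ C : ℝ, ∀ m : ℕ, Even m → 4 ≤ m → ∀ ε : ℝ, 0 < ε → ∃ Y₀ : ℕ, ∀ Y : ℕ, Y₀ ≤ Y →
    ({y : ℕ | 2 ≤ y ∧ y ≤ Y ∧ ∃ x n : ℕ, y < x ∧ 3 ≤ n ∧
        repunit x m = repunit y n}.ncard : ℝ) ≤
      C * (m : ℝ) ^ (-((∏ p ∈ (m - 1).primeFactors, (1 - 1 / ((p : ℝ) - 1))) / 5)) * Y ∧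
    ({y : ℕ | 2 ≤ y ∧ y ≤ Y ∧ ∃ x n : ℕ, y < x ∧ 3 ≤ n ∧
        repunit x m = repunit y n}.ncard : ℝ) ≤
      C * Real.exp (-(Real.sqrt (Real.log m) / 10)) * Y ∧
    (3200 ≤ m → ({y : ℕ | 2 ≤ y ∧ y ≤ Y ∧ ∃ x n : ℕ, y < x ∧ 3 ≤ n ∧
        repunit x m = repunit y n}.ncard : ℝ) ≤
      (2 * Real.exp 1 * (∑ p ∈ (m - 1).primeFactors, 1 / ((p : ℝ) - 1)) + ε) * Y) := by
  obtain ⟨C, hC, h⟩ := count_pow
  refine ⟨C, fun m hme hm4 ε hε => ?_⟩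
  obtain ⟨Y₁, hY₁⟩ := h m hme hm4
  have hset : ∀ Y : ℕ, {y : ℕ | 2 ≤ y ∧ y ≤ Y ∧ ∃ x n : ℕ, y < x ∧ 3 ≤ n ∧
      repunit x m = repunit y n} = exc m Y := by
    intro Y
    ext y
    constructor
    · rintro ⟨h1, h2, x, n, h3, h4, h5⟩
      exact ⟨h2, x, n, h1, h3, by omega, h4, h5⟩
    · rintro ⟨h2, x, n, h1, h3, -, h4, h5⟩
      exact ⟨h1, h2, x, n, h3, h4, h5⟩
  have h12 : ∀ Y : ℕ, Y₁ ≤ Y → ((exc m Y).ncard : ℝ) ≤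
      C * Real.exp (-(Real.sqrt (Real.log m) / 10)) * Y := by
    intro Y hY
    refine (hY₁ Y hY).trans ?_
    refine mul_le_mul_of_nonneg_right ?_ (Nat.cast_nonneg Y)
    exact mul_le_mul_of_nonneg_left (pow_le_sqrt hme hm4) hC.le
  by_cases hm : 3200 ≤ m
  · obtain ⟨Y₂, hY₂⟩ := count_two' m hm ε hε
    refine ⟨max Y₁ Y₂, fun Y hY => ?_⟩
    rw [hset Y]
    have ha : Y₁ ≤ Y := (le_max_left _ _).trans hY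
    have hb : Y₂ ≤ Y := (le_max_right _ _).trans hY
    exact ⟨hY₁ Y ha, h12 Y ha, fun _ => hY₂ Y hb⟩
  · refine ⟨Y₁, fun Y hY => ?_⟩
    rw [hset Y]
    exact ⟨hY₁ Y hY, h12 Y hY, fun h3 => absurd h3 hm⟩

end Pool.Agent.Results.MP_88e4f4_nt.AlmostAllBases
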