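import Pool.Agent.MP_88e4f4_nt.TK.W2
import Pool.Agent.MP_88e4f4_nt.TQ.Y8
import Pool.Prelude.Def_F_feb75459

set_option autoImplicit false

namespace Pool.Agent.Results.MP_88e4f4_nt.CommonFactor

open N014b56fe Pool.Agent.MP_88e4f4_nt.GB Pool.Agent.MP_88e4f4_nt.TK Pool.Agent.MP_88e4f4_nt.TQ

/-- Let `κ ≥ 1` and `m ≥ 400 κ ^ 3`. Consider the solutions `(x, y, n)` of `R_x(m) = R_y(n)` with
`x > y ≥ 2`, `n ≥ 3` (so `m` is the smaller number of digits) for which `y` has a divisor `g` with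
`y ≤ g ^ κ`, all of whose prime factors `q` divide `x` or satisfy `gcd (m - 1) (q (q - 1)) = 1` (for
example `g = gcd x y`). All of them have `y < (6 κ) ^ (20 κ)`, and there are only finitely many. -/
theorem result (κ m : ℕ) (hκ : 1 ≤ κ) (hm : 400 * κ ^ 3 ≤ m) :
    (∀ x y n g : ℕ, 2 ≤ y → y < x → 3 ≤ n → repunit x m = repunit y n → g ∣ y →
        (∀ q : ℕ, q.Prime → q ∣ g → q ∣ x ∨ Nat.Coprime (m - 1) (q * (q - 1))) →
        y ≤ g ^ κ → y < (6 * κ) ^ (20 * κ)) ∧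
      {p : ℕ × ℕ × ℕ | 2 ≤ p.2.1 ∧ p.2.1 < p.1 ∧ 3 ≤ p.2.2 ∧
        repunit p.1 m = repunit p.2.1 p.2.2 ∧ ∃ g : ℕ, g ∣ p.2.1 ∧
          (∀ q : ℕ, q.Prime → q ∣ g → q ∣ p.1 ∨ Nat.Coprime (m - 1) (q * (q - 1))) ∧
          p.2.1 ≤ g ^ κ}.Finite := by
  have hm3 : 3 ≤ m := by
    have : 1 ≤ κ ^ 3 := Nat.one_le_pow _ _ hκ
    omega
  constructor
  · intro x y n g hy hxy hn he hg hq hgk
    have hs : Sol x y m n := ⟨hy, hxy, hm3, hn, he⟩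
    exact y_bound_q hκ hm hs (le_gcd_pow hs hg hq hgk)
  · refine Set.Finite.subset (finite_q κ m hκ hm) ?_
    rintro ⟨x, y, n⟩ ⟨hy, hxy, hn, he, g, hg, hq, hgk⟩
    have hs : Sol x y m n := ⟨hy, hxy, hm3, hn, he⟩
    exact ⟨hs, le_gcd_pow hs hg hq hgk⟩

end Pool.Agent.Results.MP_88e4f4_nt.CommonFactor
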