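import Pool.Agent.MP_88e4f4_nt.Cases

set_option autoImplicit false

namespace Pool.Agent.Results.MP_88e4f4_nt.ConsecutiveLengths

open Finset Pool.Agent.MP_88e4f4_nt

/-- If a number has an all-ones representation with `d ≥ 3` digits in base `x` and one with
`d + 1` digits in base `y`, then `d ≥ 10`, the bases are not coprime, and their difference is
exactly the `d`-th power of their greatest common divisor, which is a unitary divisor of `y`. -/
theorem result (d x y : ℕ) (hd : 3 ≤ d) (hx : 2 ≤ x) (hy : 2 ≤ y)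
    (h : ∑ i ∈ range d, x ^ i = ∑ i ∈ range (d + 1), y ^ i) :
    10 ≤ d ∧ 2 ≤ Nat.gcd x y ∧ x = y + (Nat.gcd x y) ^ d ∧
      Nat.Coprime (Nat.gcd x y) (y / Nat.gcd x y) := by
  have hxy : y < x := by
    by_contra hle
    push Not at hle
    have h1 : ∑ i ∈ range d, x ^ i ≤ ∑ i ∈ range d, y ^ i :=
      sum_le_sum fun i _ => Nat.pow_le_pow_left hle i
    rw [h, sum_range_succ] at h1
    have : 0 < y ^ d := pow_pos (by omega) d
    omega
  obtain ⟨K, rfl⟩ := Nat.exists_eq_add_of_le hxy.le
  have hk := key h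
  obtain ⟨g, a, hg0, ha0, hcop, hK, hya, hS⟩ := structure_aux (by omega) (by omega) hk
  have hg : 2 ≤ g := by
    by_contra hlt
    have hg1 : g = 1 := by omega
    rw [hg1, one_pow] at hK
    rw [hK] at h
    exact no_consecutive_bases hd hy h
  have hgcd : Nat.gcd (y + K) y = g := by
    rw [Nat.gcd_comm, Nat.gcd_self_add_right, hK, hya]
    obtain ⟨e, rfl⟩ : ∃ e, d = e + 1 := ⟨d - 1, by omega⟩
    rw [pow_succ, mul_comm (g ^ e) g, Nat.gcd_mul_left]
    have : Nat.gcd a (g ^ e) = 1 := (Nat.Coprime.pow_left e hcop).symm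
    rw [this, mul_one]
  rw [hgcd]
  refine ⟨?_, hg, by rw [hK], ?_⟩
  · by_contra hlt
    rw [hK, hya] at hS
    exact small_cases hd (by omega) hg ha0 hS
  · rw [hya, Nat.mul_div_cancel_left a hg0]
    exact hcop

end Pool.Agent.Results.MP_88e4f4_nt.ConsecutiveLengths
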