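import Pool.Agent.MP_88e4f4_nt.GCount

set_option autoImplicit false

namespace Pool.Agent.Results.MP_88e4f4_nt.SparseLengths

open N014b56fe Pool.Agent.MP_88e4f4_nt.GB

/-- Let `b ≥ 2` have smallest prime factor `p`, let `d` be the number of divisors of `p - 1`, and let
`T ≥ 2`. The number of lengths `3 ≤ n ≤ T` such that the base-`b` repunit with `n` digits is a
Goormaghtigh number is at most
`4 · 10^7 · d · √(p T) · log b · (log T)² + 12 · 10^12 · p · (log b)³ · log T`. -/
theorem result (b T : ℕ) (hb : 2 ≤ b) (hT : 2 ≤ T) :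
    (Set.ncard {n : ℕ | 3 ≤ n ∧ n ≤ T ∧ IsGoormaghtighNumber (repunit b n)} : ℝ) ≤
      4 * 10 ^ 7 * ((b.minFac - 1).divisors.card : ℝ) * Real.sqrt (b.minFac * T) * Real.log b *
        Real.log T ^ 2 + 12 * 10 ^ 12 * b.minFac * Real.log b ^ 3 * Real.log T := by
  classical
  have h1 : {n : ℕ | 3 ≤ n ∧ n ≤ T ∧ IsGoormaghtighNumber (repunit b n)} = (GoorSet b T : Set ℕ) := by
    ext n
    unfold GoorSet
    simp only [Set.mem_setOf_eq, Finset.coe_filter, Finset.mem_range]
    constructor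
    · rintro ⟨h1, h2, h3⟩; exact ⟨by omega, h1, h3⟩
    · rintro ⟨h1, h2, h3⟩; exact ⟨h2, by omega, h3⟩
  rw [h1, Set.ncard_coe_finset]
  exact main_count hb hT

end Pool.Agent.Results.MP_88e4f4_nt.SparseLengths
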